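import Pool.Agent.Q231.LMD.Stubs

/-! # Project LMD (helper231), job H2a: counting in the rings and triangles -/

set_option autoImplicit false

namespace Pool.Agent.Q208.LMD

open Pool.Agent.NPC Pool.Agent.NPC.Cnt Pool.Agent.H49R2.PC Pool.Agent.Q231.LMD

theorem vl_iff {x y τ x' y' τ' : ℕ} : vl x y τ = vl x' y' τ' ↔ x = x' ∧ y = y' ∧ τ = τ' := by
  unfold vl
  rw [Nat.pair_eq_pair, Nat.pair_eq_pair, and_assoc]

/-- the two selectors of a ring edge -/
lemma ring_hit {L : List Pt} {K : List (Pt × ℕ)} {T : Finset ℕ} (hT : Hit (EL L K) T) {s : Pt}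
    (hs : s ∈ L) {j : ℕ} (hj : j < 12) : vl s.1 s.2 j ∈ T ∨ vl s.1 s.2 ((j + 1) % 12) ∈ T := by
  have h1 : (s, j) ∈ idx L K := by
    unfold idx
    refine List.mem_append.2 (Or.inl (List.mem_flatMap.2 ⟨s, hs, List.mem_map.2 ⟨j, List.mem_range.2 hj, rfl⟩⟩))
  have h2 : spL L s j ∈ EL L K := List.mem_map.2 ⟨(s, j), h1, rfl⟩
  obtain ⟨u, hu, huT⟩ := hT _ h2
  have h3 : u = vl s.1 s.2 j ∨ u = vl s.1 s.2 ((j + 1) % 12) := by
    unfold att spL sh at hu
    interval_cases j <;> simp [tabE, tab, hs] at hu ⊢ <;> exact hu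
  rcases h3 with rfl | rfl
  · exact Or.inl huT
  · exact Or.inr huT

/-- the two selectors of a triangle edge -/
lemma tri_hit {L : List Pt} {K : List (Pt × ℕ)} (hG : GoodLK L K) {T : Finset ℕ} (hT : Hit (EL L K) T)
    {t : Pt × ℕ} (ht : t ∈ K) {k : ℕ} (hk : k < 3) :
    vl t.1.1 t.1.2 (12 + 3 * t.2 + k) ∈ T ∨ vl t.1.1 t.1.2 (12 + 3 * t.2 + (k + 1) % 3) ∈ T := by
  have h1 : (t.1, 15 + 6 * t.2 + k) ∈ idx L K := by
    unfold idx
    refine List.mem_append.2 (Or.inr (List.mem_append.2 (Or.inr (List.mem_flatMap.2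
      ⟨t, ht, List.mem_map.2 ⟨k, List.mem_range.2 (by omega), rfl⟩⟩))))
  have h2 : spL L t.1 (15 + 6 * t.2 + k) ∈ EL L K := List.mem_map.2 ⟨_, h1, rfl⟩
  obtain ⟨u, hu, huT⟩ := hT _ h2
  have h3 : u = vl t.1.1 t.1.2 (12 + 3 * t.2 + k) ∨ u = vl t.1.1 t.1.2 (12 + 3 * t.2 + (k + 1) % 3) := by
    have h4 := hG.kind t ht
    obtain ⟨τ, hτ⟩ : ∃ τ, τ = t.2 := ⟨_, rfl⟩
    rw [← hτ] at h4 hu ⊢
    unfold att spL sh at hu
    interval_cases τ <;> interval_cases k <;> simp [tabE, tab] at hu ⊢ <;> exact hu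
  rcases h3 with rfl | rfl
  · exact Or.inl huT
  · exact Or.inr huT

/-- counting -/
lemma count {L : List Pt} {K : List (Pt × ℕ)} (hG : GoodLK L K) (T : Finset ℕ) :
    ∑ s ∈ L.toFinset, ((Finset.range 12).filter fun j => vl s.1 s.2 j ∈ T).card +
      ∑ t ∈ K.toFinset, ((Finset.range 3).filter fun k => vl t.1.1 t.1.2 (12 + 3 * t.2 + k) ∈ T).card ≤
        T.card := by
  set S1 : Finset (Σ _ : Pt, ℕ) := L.toFinset.sigma fun s => (Finset.range 12).filter fun j => vl s.1 s.2 j ∈ T with hS1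
  set S2 : Finset (Σ _ : Pt × ℕ, ℕ) := K.toFinset.sigma fun t =>
    (Finset.range 3).filter fun k => vl t.1.1 t.1.2 (12 + 3 * t.2 + k) ∈ T with hS2
  have c1 : S1.card = ∑ s ∈ L.toFinset, ((Finset.range 12).filter fun j => vl s.1 s.2 j ∈ T).card :=
    Finset.card_sigma _ _
  have c2 : S2.card = ∑ t ∈ K.toFinset,
      ((Finset.range 3).filter fun k => vl t.1.1 t.1.2 (12 + 3 * t.2 + k) ∈ T).card :=
    Finset.card_sigma _ _
  rw [← c1, ← c2]
  have m1 : ∀ x ∈ S1, x.2 < 12 ∧ vl x.1.1 x.1.2 x.2 ∈ T := by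
    intro x hx
    rw [hS1, Finset.mem_sigma, Finset.mem_filter, Finset.mem_range] at hx
    exact hx.2
  have m2 : ∀ x ∈ S2, x.1 ∈ K ∧ x.2 < 3 ∧ vl x.1.1.1 x.1.1.2 (12 + 3 * x.1.2 + x.2) ∈ T := by
    intro x hx
    rw [hS2, Finset.mem_sigma, Finset.mem_filter, Finset.mem_range, List.mem_toFinset] at hx
    exact ⟨hx.1, hx.2⟩
  set U1 := S1.image fun x => vl x.1.1 x.1.2 x.2 with hU1
  set U2 := S2.image fun x => vl x.1.1.1 x.1.1.2 (12 + 3 * x.1.2 + x.2) with hU2
  have i1 : U1.card = S1.card := by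
    refine Finset.card_image_of_injOn ?_
    rintro ⟨⟨x, y⟩, j⟩ _ ⟨⟨x', y'⟩, j'⟩ _ h
    obtain ⟨h1, h2, h3⟩ := vl_iff.1 h
    dsimp only at h1 h2 h3
    subst h1 h2 h3
    rfl
  have i2 : U2.card = S2.card := by
    refine Finset.card_image_of_injOn ?_
    rintro ⟨⟨⟨x, y⟩, τ⟩, k⟩ hx ⟨⟨⟨x', y'⟩, τ'⟩, k'⟩ hx' h
    obtain ⟨h1, h2, h3⟩ := vl_iff.1 h
    have a1 := m2 _ hx
    have a2 := m2 _ hx'
    have b1 := hG.kind _ a1.1
    have b2 := hG.kind _ a2.1
    have d1 := a1.2.1
    have d2 := a2.2.1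
    dsimp only at h1 h2 h3 b1 b2 d1 d2
    have e1 : τ = τ' := by omega
    have e2 : k = k' := by omega
    subst h1 h2 e1 e2
    rfl
  have dj : Disjoint U1 U2 := by
    rw [Finset.disjoint_left]
    intro u h1 h2
    rw [hU1, Finset.mem_image] at h1
    rw [hU2, Finset.mem_image] at h2
    obtain ⟨x, hx, hxu⟩ := h1
    obtain ⟨y, hy, hyu⟩ := h2
    have h3 := (vl_iff.1 (hxu.trans hyu.symm)).2.2
    have h4 := (m1 x hx).1
    omega
  rw [← i1, ← i2, ← Finset.card_union_of_disjoint dj]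
  refine Finset.card_le_card (Finset.union_subset ?_ ?_)
  · intro u hu
    rw [hU1, Finset.mem_image] at hu
    obtain ⟨x, hx, rfl⟩ := hu
    exact (m1 x hx).2
  · intro u hu
    rw [hU2, Finset.mem_image] at hu
    obtain ⟨x, hx, rfl⟩ := hu
    exact (m2 x hx).2.2

/-- the number of the members of a set given by indicators -/
lemma card_ind (P : ℕ → Prop) [DecidablePred P] (n : ℕ) :
    ((Finset.range n).filter P).card = ∑ j ∈ Finset.range n, if P j then 1 else 0 := by
  rw [Finset.card_filter]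

lemma pr_ite {p q : Prop} [Decidable p] [Decidable q] (h : p ∨ q) :
    1 ≤ (if p then 1 else 0) + (if q then 1 else 0) := by
  by_cases hp : p <;> by_cases hq : q <;> simp_all

/-- JOB H2a -/
theorem H2a_ok : S_H2a := by
  classical
  intro L K hG T hT hcard
  have hc := count hG T
  have hLc : L.toFinset.card = L.length := List.toFinset_card_of_nodup hG.nodupL
  have hKc : K.toFinset.card = K.length := List.toFinset_card_of_nodup hG.nodupK
  -- lower bounds
  have lowR : ∀ s ∈ L.toFinset, 6 ≤ ((Finset.range 12).filter fun j => vl s.1 s.2 j ∈ T).card := by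
    intro s hs
    rw [List.mem_toFinset] at hs
    rw [card_ind]
    have h0 := ring_hit hT hs (j := 0) (by norm_num)
    have h2 := ring_hit hT hs (j := 2) (by norm_num)
    have h4 := ring_hit hT hs (j := 4) (by norm_num)
    have h6 := ring_hit hT hs (j := 6) (by norm_num)
    have h8 := ring_hit hT hs (j := 8) (by norm_num)
    have h10 := ring_hit hT hs (j := 10) (by norm_num)
    norm_num at h0 h2 h4 h6 h8 h10
    simp only [Finset.sum_range_succ, Finset.sum_range_zero, zero_add]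
    have := pr_ite h0
    have := pr_ite h2
    have := pr_ite h4
    have := pr_ite h6
    have := pr_ite h8
    have := pr_ite h10
    omega
  have lowQ : ∀ t ∈ K.toFinset,
      2 ≤ ((Finset.range 3).filter fun k => vl t.1.1 t.1.2 (12 + 3 * t.2 + k) ∈ T).card := by
    intro t ht
    rw [List.mem_toFinset] at ht
    rw [card_ind]
    have h0 := tri_hit hG hT ht (k := 0) (by norm_num)
    have h1 := tri_hit hG hT ht (k := 1) (by norm_num)
    have h2 := tri_hit hG hT ht (k := 2) (by norm_num)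
    norm_num at h0 h1 h2
    simp only [Finset.sum_range_succ, Finset.sum_range_zero, zero_add, add_zero]
    by_cases a0 : vl t.1.1 t.1.2 (12 + 3 * t.2) ∈ T <;>
      by_cases a1 : vl t.1.1 t.1.2 (12 + 3 * t.2 + 1) ∈ T <;>
      by_cases a2 : vl t.1.1 t.1.2 (12 + 3 * t.2 + 2) ∈ T <;> simp_all
  have sR : 6 * L.length ≤ ∑ s ∈ L.toFinset, ((Finset.range 12).filter fun j => vl s.1 s.2 j ∈ T).card := by
    rw [← hLc, mul_comm, ← smul_eq_mul, ← Finset.sum_const]
    exact Finset.sum_le_sum lowR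
  have sQ : 2 * K.length ≤ ∑ t ∈ K.toFinset,
      ((Finset.range 3).filter fun k => vl t.1.1 t.1.2 (12 + 3 * t.2 + k) ∈ T).card := by
    rw [← hKc, mul_comm, ← smul_eq_mul, ← Finset.sum_const]
    exact Finset.sum_le_sum lowQ
  constructor
  · intro s hs j hj
    have hsF : s ∈ L.toFinset := List.mem_toFinset.2 hs
    have hR : ((Finset.range 12).filter fun j => vl s.1 s.2 j ∈ T).card ≤ 6 := by
      by_contra hlt
      have h1 : ∑ s ∈ L.toFinset, 6 < ∑ s ∈ L.toFinset, ((Finset.range 12).filter fun j => vl s.1 s.2 j ∈ T).card :=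
        Finset.sum_lt_sum lowR ⟨s, hsF, by omega⟩
      rw [Finset.sum_const, smul_eq_mul, hLc] at h1
      omega
    rw [card_ind] at hR
    simp only [Finset.sum_range_succ, Finset.sum_range_zero, zero_add] at hR
    have h0 := ring_hit hT hs (j := 0) (by norm_num)
    have h1 := ring_hit hT hs (j := 1) (by norm_num)
    have h2 := ring_hit hT hs (j := 2) (by norm_num)
    have h3 := ring_hit hT hs (j := 3) (by norm_num)
    have h4 := ring_hit hT hs (j := 4) (by norm_num)
    have h5 := ring_hit hT hs (j := 5) (by norm_num)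
    have h6 := ring_hit hT hs (j := 6) (by norm_num)
    have h7 := ring_hit hT hs (j := 7) (by norm_num)
    have h8 := ring_hit hT hs (j := 8) (by norm_num)
    have h9 := ring_hit hT hs (j := 9) (by norm_num)
    have h10 := ring_hit hT hs (j := 10) (by norm_num)
    have h11 := ring_hit hT hs (j := 11) (by norm_num)
    norm_num at h0 h1 h2 h3 h4 h5 h6 h7 h8 h9 h10 h11
    have val : ∀ i, ∃ x : ℕ, (x = if vl s.1 s.2 i ∈ T then 1 else 0) ∧ x ≤ 1 ∧ (vl s.1 s.2 i ∈ T ↔ x = 1) := by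
      intro i
      by_cases h : vl s.1 s.2 i ∈ T
      · exact ⟨1, by rw [if_pos h], le_rfl, by simp [h]⟩
      · exact ⟨0, by rw [if_neg h], by norm_num, by simp [h]⟩
    choose x hx1 hx2 hx3 using val
    simp only [← hx1] at hR
    simp only [hx3] at h0 h1 h2 h3 h4 h5 h6 h7 h8 h9 h10 h11 ⊢
    have b0 := hx2 0
    have b1 := hx2 1
    have b2 := hx2 2
    have b3 := hx2 3
    have b4 := hx2 4
    have b5 := hx2 5
    have b6 := hx2 6
    have b7 := hx2 7
    have b8 := hx2 8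
    have b9 := hx2 9
    have b10 := hx2 10
    have b11 := hx2 11
    interval_cases j <;> omega
  · intro t ht
    have htF : t ∈ K.toFinset := List.mem_toFinset.2 ht
    have hQ : ((Finset.range 3).filter fun k => vl t.1.1 t.1.2 (12 + 3 * t.2 + k) ∈ T).card ≤ 2 := by
      by_contra hlt
      have h1 : ∑ t ∈ K.toFinset, 2 < ∑ t ∈ K.toFinset,
          ((Finset.range 3).filter fun k => vl t.1.1 t.1.2 (12 + 3 * t.2 + k) ∈ T).card :=
        Finset.sum_lt_sum lowQ ⟨t, htF, by omega⟩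
      rw [Finset.sum_const, smul_eq_mul, hKc] at h1
      omega
    by_contra hno
    have h1 : (Finset.range 3).filter (fun k => vl t.1.1 t.1.2 (12 + 3 * t.2 + k) ∈ T) = Finset.range 3 := by
      refine Finset.filter_true_of_mem fun k hk => ?_
      by_contra h
      exact hno ⟨k, Finset.mem_range.1 hk, h⟩
    rw [h1, Finset.card_range] at hQ
    omega

end Pool.Agent.Q208.LMD
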